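import Pool.Agent.Lib.MP_94a9ea_al.H25.Amen

set_option autoImplicit false

namespace Pool.Agent.Results.MP_94a9ea_al.AmenableRO
open Pool.Agent.Lib.MP_94a9ea_al.H25

/-- An amenable R* group is right orderable if every finitely generated subgroup with finite
abelianisation has an abelian normal subgroup and an element whose normal closure together
generate a subgroup of finite index. -/
theorem result (G : Type) [Group G] (μ : Set G → ℝ) (h0 : ∀ A, 0 ≤ μ A) (h1 : μ Set.univ = 1)
    (ha : ∀ A B : Set G, Disjoint A B → μ (A ∪ B) = μ A + μ B)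
    (hi : ∀ (g : G) (A : Set G), μ ((fun y => g * y) ⁻¹' A) = μ A)
    (hK : ∀ K : Subgroup G, K.FG → (commutator K).FiniteIndex →
      ∃ (A : Subgroup K) (x : K), A.Normal ∧ (∀ a ∈ A, ∀ b ∈ A, a * b = b * a) ∧
        (Subgroup.normalClosure {x} ⊔ A).FiniteIndex)
    (hR : ∀ g : G, g ≠ 1 → ∀ l : List G, l ≠ [] → (l.map (fun h => h⁻¹ * g * h)).prod ≠ 1) :
    ∃ o : LinearOrder G, ∀ a b c : G, o.le a b → o.le (a * c) (b * c) :=
  pos_amen G ⟨μ, h0, h1, ha, hi⟩ hK hR

end Pool.Agent.Results.MP_94a9ea_al.AmenableRO
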