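import Pool.Agent.Lib.MP_94a9ea_al.H25.BH
import Pool.Agent.Lib.MP_94a9ea_al.H25.Tor
import Pool.Agent.Lib.MP_94a9ea_al.H25.Mech2

set_option autoImplicit false

namespace Pool.Agent.Results.MP_94a9ea_al.RankTwoRO
open Pool.Agent.Lib.MP_94a9ea_al.H25

/-- An R* group is right orderable if it has a metabelian normal subgroup `H` such that every
finitely generated subgroup of the quotient is finite on two generators or maps onto the
integers. -/
theorem result (G : Type) [Group G] (H : Subgroup G) [H.Normal] (hd : derivedSeries H 2 = ⊥)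
    (hr : ∀ K : Subgroup (G ⧸ H), K.FG → (Finite K ∧ ∃ s t, Subgroup.closure {s, t} = K) ∨
      ∃ φ : K →* Multiplicative ℤ, Function.Surjective φ)
    (hR : ∀ g : G, g ≠ 1 → ∀ l : List G, l ≠ [] → (l.map (fun h => h⁻¹ * g * h)).prod ≠ 1) :
    ∃ o : LinearOrder G, ∀ a b c : G, o.le a b → o.le (a * c) (b * c) :=
  pos2 bh_st tor_st G H hd hr hR

end Pool.Agent.Results.MP_94a9ea_al.RankTwoRO
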