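import Pool.Agent.Lib.MP_94a9ea_al.H25.Abs4
import Pool.Agent.Lib.MP_94a9ea_al.H25.BS
import Pool.Agent.Lib.MP_94a9ea_al.H25.PK
import Pool.Agent.Lib.MP_94a9ea_al.H25.Noe
import Pool.Agent.Lib.MP_94a9ea_al.H25.FP
import Pool.Agent.Lib.MP_94a9ea_al.H25.Loc

set_option autoImplicit false

namespace Pool.Agent.Results.MP_94a9ea_al.SolvableNotRO
open Pool.Agent.Lib.MP_94a9ea_al.H25

/-- A finitely presented R* group, an extension of a metabelian group by the elementary abelian
group of order eight, without a right invariant total order. -/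
theorem result :
    ∃ (G : Type) (_ : Group G), Group.IsFinitelyPresented G ∧ derivedSeries G 3 = ⊥ ∧
      (∃ f : G →* Multiplicative (Fin 3 → ZMod 2), Function.Surjective f ∧
        derivedSeries f.ker 2 = ⊥) ∧
      (∀ g : G, g ≠ 1 → ∀ l : List G, l ≠ [] → (l.map (fun h => h⁻¹ * g * h)).prod ≠ 1) ∧
      ¬ ∃ o : LinearOrder G, ∀ a b c : G, o.le a b → o.le (a * c) (b * c) :=
  neg_fp loc_st (fp_st (pk_st bs_st) noe_st)

end Pool.Agent.Results.MP_94a9ea_al.SolvableNotRO
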